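import Mathlib
import Pool.Agent.H67Tern.Iso2
import Pool.Agent.H67Tern.N01
import Pool.Agent.H67Tern.N02
import Pool.Agent.H67Tern.N03
import Pool.Agent.H67Tern.N04
import Pool.Agent.H67Tern.N05
import Pool.Agent.H67Tern.N06
import Pool.Agent.H67Tern.N07
import Pool.Agent.H67Tern.N08
import Pool.Agent.H67Tern.N09
import Pool.Agent.H67Tern.N10

set_option autoImplicit false
set_option maxRecDepth 100000

/-!
# Excluded minors for the ternary balanced matroids with up to 108 elements

`N` is the ternary matroid of rank 4 on 8 elements with the columns `N8.A`. Ten parallel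
extensions of `N` are excluded minors.
-/

namespace Pool.Agent.Results.MP_717409_co.LargeExcludedMinors

open Pool.Agent.H67Tern

/-- The sizes of the parallel classes: the `i`-th entry is the number of copies of the `i`-th
column. -/
def sizes : List (List ℕ) :=
  [[20, 21, 1, 1, 1, 1, 4, 4],
   [19, 22, 1, 1, 1, 1, 4, 4],
   [22, 23, 1, 1, 1, 1, 4, 3],
   [25, 18, 1, 1, 1, 1, 5, 5],
   [25, 21, 1, 1, 1, 1, 4, 3],
   [25, 24, 1, 1, 1, 1, 3, 3],
   [26, 23, 1, 1, 1, 1, 3, 3],
   [45, 46, 1, 1, 1, 1, 4, 2],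
   [49, 49, 1, 1, 1, 1, 3, 2],
   [51, 48, 1, 1, 1, 1, 3, 2]]

/-- The rank 4 ternary matroid on the eight columns
`0100, 1100, 1000, 0010, 0001, 1011, 1121, 0112`. -/
noncomputable def N : Matroid (Fin 8) :=
  colMat 4 [[0, 1, 0, 0], [1, 1, 0, 0], [1, 0, 0, 0], [0, 0, 1, 0], [0, 0, 0, 1], [1, 0, 1, 1],
    [1, 1, 2, 1], [0, 1, 1, 2]]

/-- `N` with its `i`-th element replaced by `l.getD i 1` parallel copies. -/
noncomputable def P (l : List ℕ) : Matroid ((i : Fin 8) × Fin (l.getD i 1)) :=
  parExt N (fun i => l.getD i 1)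

noncomputable def F (l : List ℕ) : ℕ × ℕ := (Nat.card (P l).E, nb (P l) ∅ ∅)

theorem F_eq (l : List ℕ) (h : ∀ i < 8, 1 ≤ l.getD i 1) :
    F l = (((List.range 8).map (fun i => l.getD i 1)).sum,
      (N8.L.map (fun s => ((List.range 8).map
        (fun k => if s.testBit k then l.getD k 1 else 1)).prod)).sum) := by
  unfold F
  have h1 := card_parExt (r := 4) (A := N8.A) (W := fun i => l.getD i 1)
  have h2 := nb_parExt_total N8.hA (by rw [N8.hL]; decide) (W := fun i => l.getD i 1) h
  rw [N8.hL] at h2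
  exact Prod.ext h1 h2

theorem F_values : sizes.map F = [(53, 15224), (53, 15170), (56, 15607), (57, 20562), (57, 16138), (59, 15658), (59, 15616), (101, 48812), (107, 47874), (108, 48767)] := by
  unfold sizes
  simp only [List.map_cons, List.map_nil]
  rw [F_eq [20, 21, 1, 1, 1, 1, 4, 4] (by decide)]
  rw [F_eq [19, 22, 1, 1, 1, 1, 4, 4] (by decide)]
  rw [F_eq [22, 23, 1, 1, 1, 1, 4, 3] (by decide)]
  rw [F_eq [25, 18, 1, 1, 1, 1, 5, 5] (by decide)]
  rw [F_eq [25, 21, 1, 1, 1, 1, 4, 3] (by decide)]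
  rw [F_eq [25, 24, 1, 1, 1, 1, 3, 3] (by decide)]
  rw [F_eq [26, 23, 1, 1, 1, 1, 3, 3] (by decide)]
  rw [F_eq [45, 46, 1, 1, 1, 1, 4, 2] (by decide)]
  rw [F_eq [49, 49, 1, 1, 1, 1, 3, 2] (by decide)]
  rw [F_eq [51, 48, 1, 1, 1, 1, 3, 2] (by decide)]
  decide +kernel

/-- Ten pairwise non-isomorphic parallel extensions of `N`, with 53, 53, 56, 57, 57, 59, 59, 101,
107 and 108 elements, are excluded minors for the class of ternary balanced matroids. -/
theorem result :
    sizes.map (fun l => Nat.card (P l).E) = [53, 53, 56, 57, 57, 59, 59, 101, 107, 108] ∧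
    (∀ l ∈ sizes, ExcludedMinor (P l)) ∧
    sizes.Pairwise (fun l l' => ¬ Isomorphic (P l) (P l')) := by
  refine ⟨?_, ?_, ?_⟩
  · have h := congrArg (List.map Prod.fst) F_values
    rw [List.map_map] at h
    exact h
  · intro l hl
    unfold sizes at hl
    simp only [List.mem_cons, List.not_mem_nil, or_false] at hl
    rcases hl with rfl | rfl | rfl | rfl | rfl | rfl | rfl | rfl | rfl | rfl
    · exact N8.N01.excluded
    · exact N8.N02.excluded
    · exact N8.N03.excluded
    · exact N8.N04.excluded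
    · exact N8.N05.excluded
    · exact N8.N06.excluded
    · exact N8.N07.excluded
    · exact N8.N08.excluded
    · exact N8.N09.excluded
    · exact N8.N10.excluded
  · have h1 : (sizes.map F).Pairwise (fun a b => a ≠ b) := by
      rw [F_values]
      decide
    rw [List.pairwise_map] at h1
    refine h1.imp ?_
    intro x y hxy hiso
    exact hxy (Prod.ext hiso.card_eq hiso.nb_eq)

end Pool.Agent.Results.MP_717409_co.LargeExcludedMinors
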