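import Pool.Agent.LibTR43.En
import Pool.Agent.LibTR43.H1

/-!
# The excluded minors for the ternary balanced matroids in rank or corank at most four

Among the ternary matroids which are simple of rank at most four, or cosimple of corank at most four, the balanced ones are
those without a minor isomorphic to one of two matroids `M1`, `M2` with eight elements, and `M1`, `M2` are the only excluded
minors for the class `𝒯` of ternary balanced matroids.

`M1` and `M2` are the matroids of the columns `E01.A`, `E02.A` (vectors of `GF(3)^4`):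
`1000, 0100, 0010, 0001, 1100, 1010, 1001, 1111` and `1000, 0100, 0010, 0001, 1100, 1010, 1201, 1111`.
-/

namespace Pool.Agent.Results.MP_717409_co.RankFour

open Pool.Agent.H67Tern Pool.Agent.LibTR43 Matroid

theorem result.{u} :
    (ExcludedMinor M1 ∧ ExcludedMinor M2 ∧ ¬ Isomorphic M1 M2) ∧
    ∀ (α : Type u) (M : Matroid α), M.Finite → Ternary M →
      ((Simple M ∧ M.eRank ≤ 4) ∨ (Simple M✶ ∧ M✶.eRank ≤ 4)) →
        (Balanced M ↔ ∀ N, N ≤m M → ¬ Isomorphic N M1 ∧ ¬ Isomorphic N M2) ∧
        (ExcludedMinor M ↔ Isomorphic M M1 ∨ Isomorphic M M2) ∧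
        (Balanced M → M.E.ncard ≤ 16) := by
  refine ⟨⟨E01.excluded, E02.excluded, ?_⟩, ?_⟩
  · intro h
    have h1 := iso_nb h
    rw [nb_empty E01.hA (by rw [E01.hL]; decide), nb_empty E02.hA (by rw [E02.hL]; decide), E01.hL, E02.hL] at h1
    exact absurd h1 (by decide)
  · intro α M hM ht h
    exact ⟨main_balanced en ht h, main_excluded en ht h, main_card en ht h⟩

end Pool.Agent.Results.MP_717409_co.RankFour
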