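import Mathlib
import Pool.Agent.H67Tern.Iso
import Pool.Agent.H67Tern.E01
import Pool.Agent.H67Tern.E02
import Pool.Agent.H67Tern.E03
import Pool.Agent.H67Tern.E04
import Pool.Agent.H67Tern.E05
import Pool.Agent.H67Tern.E06
import Pool.Agent.H67Tern.E07
import Pool.Agent.H67Tern.E08
import Pool.Agent.H67Tern.E09
import Pool.Agent.H67Tern.E10
import Pool.Agent.H67Tern.E11
import Pool.Agent.H67Tern.E12
import Pool.Agent.H67Tern.E13
import Pool.Agent.H67Tern.E14

set_option autoImplicit false
set_option maxRecDepth 100000

/-!
# Fourteen excluded minors for the ternary balanced matroids with at most twelve elements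

Each entry `(r, A)` of the list `matrices` is a rank `r` and the list of the columns (vectors of
`GF(3)^r`) of a ternary representation.
-/

namespace Pool.Agent.Results.MP_717409_co.SmallExcludedMinors

open Pool.Agent.H67Tern

/-- The list of matrices: pairs of a rank and a list of columns over `GF(3)`. -/
def matrices : List (ℕ × List (List ℕ)) :=
  [(4, E01.A),
   (4, E02.A),
   (5, E03.A),
   (5, E04.A),
   (5, E05.A),
   (5, E06.A),
   (5, E07.A),
   (6, E08.A),
   (6, E09.A),
   (6, E10.A),
   (5, E11.A),
   (6, E12.A),
   (6, E13.A),
   (7, E14.A)]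

/-- The sum invariant used to distinguish the matroids. -/
noncomputable def F (x : ℕ × List (List ℕ)) : ℕ :=
  ∑ e : Fin x.2.length, (1 + nb (colMat x.1 x.2) {e} ∅) ^ 3

theorem F_values : matrices.map F = [135864, 160218, 5851832, 6422996, 18576632, 18393333, 19431543, 31256075, 33120155, 31573577, 58974908, 134220156, 133875828, 157888012] := by
  unfold matrices
  simp only [List.map_cons, List.map_nil]
  rw [show F (4, E01.A) = 135864 from E01.inv]
  rw [show F (4, E02.A) = 160218 from E02.inv]
  rw [show F (5, E03.A) = 5851832 from E03.inv]
  rw [show F (5, E04.A) = 6422996 from E04.inv]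
  rw [show F (5, E05.A) = 18576632 from E05.inv]
  rw [show F (5, E06.A) = 18393333 from E06.inv]
  rw [show F (5, E07.A) = 19431543 from E07.inv]
  rw [show F (6, E08.A) = 31256075 from E08.inv]
  rw [show F (6, E09.A) = 33120155 from E09.inv]
  rw [show F (6, E10.A) = 31573577 from E10.inv]
  rw [show F (5, E11.A) = 58974908 from E11.inv]
  rw [show F (6, E12.A) = 134220156 from E12.inv]
  rw [show F (6, E13.A) = 133875828 from E13.inv]
  rw [show F (7, E14.A) = 157888012 from E14.inv]

/-- Fourteen pairwise non-isomorphic ternary matroids with at most twelve elements are excluded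
minors for the class of ternary balanced matroids. -/
theorem result :
    matrices.length = 14 ∧
    (∀ x ∈ matrices, ExcludedMinor (colMat x.1 x.2)) ∧
    matrices.Pairwise (fun x y => ¬ Isomorphic (colMat x.1 x.2) (colMat y.1 y.2)) := by
  refine ⟨rfl, ?_, ?_⟩
  · intro x hx
    unfold matrices at hx
    simp only [List.mem_cons, List.not_mem_nil, or_false] at hx
    rcases hx with rfl | rfl | rfl | rfl | rfl | rfl | rfl | rfl | rfl | rfl | rfl | rfl | rfl | rfl
    · exact E01.excluded
    · exact E02.excluded
    · exact E03.excluded
    · exact E04.excluded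
    · exact E05.excluded
    · exact E06.excluded
    · exact E07.excluded
    · exact E08.excluded
    · exact E09.excluded
    · exact E10.excluded
    · exact E11.excluded
    · exact E12.excluded
    · exact E13.excluded
    · exact E14.excluded
  · have h1 : (matrices.map F).Pairwise (fun a b => a ≠ b) := by
      rw [F_values]
      decide
    rw [List.pairwise_map] at h1
    refine h1.imp ?_
    intro x y hxy hiso
    exact hxy (hiso.sum_eq (colMat_E _ _) (colMat_E _ _) (fun b => (1 + b) ^ 3))

end Pool.Agent.Results.MP_717409_co.SmallExcludedMinors
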